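import Mathlib
import Pool.Agent.W809.ZQ.Stm

/-! Project ZQ (helper809), part NC: a subgroup with a noncentral one-parameter group is closed. -/

set_option autoImplicit false

namespace Pool.Agent.W287.ZQ

open Set Filter Topology
open Pool.Agent.W809.ZQ

section gen

variable {G : Type*} [Group G] [TopologicalSpace G] [IsTopologicalGroup G]

theorem stepB {C N : Subgroup G} (hK : IsClosed ((C ⊓ N : Subgroup G) : Set G))
    (hTR : ∀ O ∈ 𝓝 (1 : G), ∃ O' ∈ 𝓝 (1 : G), ∀ g ∈ closure (C : Set G), g ∈ O' →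
      ∃ c ∈ C, c ∈ O ∧ c⁻¹ * g ∈ N) (y : G) (hy : y ∈ closure (C : Set G)) (hyN : y ∈ N) :
    y ∈ C := by
  have h1 : y ∈ closure ((C ⊓ N : Subgroup G) : Set G) := by
    rw [mem_closure_iff_nhds]
    intro V hV
    have h2 : Tendsto (fun p : G × G => p.1⁻¹ * p.2 * y) (𝓝 1 ×ˢ 𝓝 1) (𝓝 y) := by
      have h3 : Continuous (fun p : G × G => p.1⁻¹ * p.2 * y) := by fun_prop
      have h4 := h3.tendsto (1, 1)
      simp only [inv_one, one_mul] at h4
      rwa [nhds_prod_eq] at h4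
    have h5 := h2 hV
    rw [mem_map, mem_prod_same_iff] at h5
    obtain ⟨O, hO, hOV⟩ := h5
    obtain ⟨O', hO', hTR'⟩ := hTR O hO
    have h6 : Continuous (fun c : G => c * y⁻¹) := by fun_prop
    have h7 : ∀ᶠ c in 𝓝 y, c * y⁻¹ ∈ O ∩ O' := by
      apply h6.continuousAt.eventually_mem
      rw [mul_inv_cancel]
      exact Filter.inter_mem hO hO'
    obtain ⟨c2, hc2, hc2C⟩ := mem_closure_iff_nhds.1 hy _ h7
    have hc2' : c2 * y⁻¹ ∈ O ∩ O' := hc2
    have hc2C' : c2 ∈ C := hc2C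
    have h8 : c2 * y⁻¹ ∈ closure (C : Set G) := by
      have h81 : c2 * y⁻¹ ∈ C.topologicalClosure :=
        C.topologicalClosure.mul_mem (C.le_topologicalClosure hc2C')
          (C.topologicalClosure.inv_mem hy)
      exact h81
    obtain ⟨c3, hc3C, hc3O, h9⟩ := hTR' (c2 * y⁻¹) h8 hc2'.2
    have h10 : c3⁻¹ * (c2 * y⁻¹) * y = c3⁻¹ * c2 := by group
    refine ⟨c3⁻¹ * c2, ?_, ?_⟩
    · rw [← h10]
      exact hOV (Set.mk_mem_prod hc3O hc2'.1)
    · refine Subgroup.mem_inf.2 ⟨C.mul_mem (C.inv_mem hc3C) hc2C', ?_⟩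
      rw [← h10]
      exact N.mul_mem h9 hyN
  rw [hK.closure_eq] at h1
  exact (Subgroup.mem_inf.1 h1).1

theorem closed_gen {C N : Subgroup G} (hK : IsClosed ((C ⊓ N : Subgroup G) : Set G))
    (hTR : ∀ O ∈ 𝓝 (1 : G), ∃ O' ∈ 𝓝 (1 : G), ∀ g ∈ closure (C : Set G), g ∈ O' →
      ∃ c ∈ C, c ∈ O ∧ c⁻¹ * g ∈ N) : IsClosed (C : Set G) := by
  rw [← closure_subset_iff_isClosed]
  intro x hx
  obtain ⟨O', hO', hTR'⟩ := hTR univ univ_mem
  have h6 : Continuous (fun c : G => c⁻¹ * x) := by fun_prop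
  have h7 : ∀ᶠ c in 𝓝 x, c⁻¹ * x ∈ O' := by
    apply h6.continuousAt.eventually_mem
    rw [inv_mul_cancel]
    exact hO'
  obtain ⟨c, hc, hcC⟩ := mem_closure_iff_nhds.1 hx _ h7
  have hcC' : c ∈ C := hcC
  have hc' : c⁻¹ * x ∈ O' := hc
  have h8 : c⁻¹ * x ∈ closure (C : Set G) := by
    have h81 : c⁻¹ * x ∈ C.topologicalClosure :=
      C.topologicalClosure.mul_mem (C.topologicalClosure.inv_mem (C.le_topologicalClosure hcC')) hx
    exact h81
  obtain ⟨c1, hc1C, _, h9⟩ := hTR' (c⁻¹ * x) h8 hc'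
  have h10 : c1⁻¹ * (c⁻¹ * x) ∈ closure (C : Set G) := by
    have h81 : c1⁻¹ * (c⁻¹ * x) ∈ C.topologicalClosure :=
      C.topologicalClosure.mul_mem (C.topologicalClosure.inv_mem (C.le_topologicalClosure hc1C)) h8
    exact h81
  have h11 := stepB hK hTR _ h10 h9
  have h12 : c * (c1 * (c1⁻¹ * (c⁻¹ * x))) = x := by group
  show x ∈ C
  rw [← h12]
  exact C.mul_mem hcC' (C.mul_mem hc1C h11)

end gen

variable {n : ℕ}

/-- the elements which commute with all directions of `C` -/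
def N1 (C : Subgroup (U n)) : Subgroup (U n) where
  carrier := {g | ∀ X ∈ LL C, (g : Mt n) * X = X * (g : Mt n)}
  mul_mem' {a b} ha hb := by
    intro X hX
    show ((a * b : U n) : Mt n) * X = X * ((a * b : U n) : Mt n)
    rw [Submonoid.coe_mul, mul_assoc, hb X hX, ← mul_assoc, ha X hX, mul_assoc]
  one_mem' := by
    intro X _
    show ((1 : U n) : Mt n) * X = X * ((1 : U n) : Mt n)
    rw [Submonoid.coe_one, one_mul, mul_one]
  inv_mem' {a} ha := by
    intro X hX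
    show ((a⁻¹ : U n) : Mt n) * X = X * ((a⁻¹ : U n) : Mt n)
    have h1 : (a : Mt n) * ((a⁻¹ : U n) : Mt n) = 1 := by
      rw [← Submonoid.coe_mul, mul_inv_cancel]; rfl
    have h2 : ((a⁻¹ : U n) : Mt n) * (a : Mt n) = 1 := by
      rw [← Submonoid.coe_mul, inv_mul_cancel]; rfl
    calc ((a⁻¹ : U n) : Mt n) * X
        = ((a⁻¹ : U n) : Mt n) * X * ((a : Mt n) * ((a⁻¹ : U n) : Mt n)) := by rw [h1, mul_one]
      _ = ((a⁻¹ : U n) : Mt n) * (X * (a : Mt n)) * ((a⁻¹ : U n) : Mt n) := by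
          simp only [mul_assoc]
      _ = ((a⁻¹ : U n) : Mt n) * ((a : Mt n) * X) * ((a⁻¹ : U n) : Mt n) := by rw [ha X hX]
      _ = (((a⁻¹ : U n) : Mt n) * (a : Mt n)) * X * ((a⁻¹ : U n) : Mt n) := by
          simp only [mul_assoc]
      _ = X * ((a⁻¹ : U n) : Mt n) := by rw [h2, one_mul]

theorem mem_N1 {C : Subgroup (U n)} {g : U n} :
    g ∈ N1 C ↔ ∀ X ∈ LL C, (g : Mt n) * X = X * (g : Mt n) := Iff.rfl

theorem N1_closed (C : Subgroup (U n)) : IsClosed (N1 C : Set (U n)) := by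
  have h : (N1 C : Set (U n)) =
      ⋂ X ∈ LL C, {g : U n | (g : Mt n) * X = X * (g : Mt n)} := by
    ext g
    simp only [Set.mem_iInter, Set.mem_ofPred_eq, SetLike.mem_coe, mem_N1]
  rw [h]
  refine isClosed_biInter ?_
  intro X _
  exact isClosed_eq (continuous_subtype_val.mul continuous_const)
    (continuous_const.mul continuous_subtype_val)

theorem K1_closed (C : Subgroup (U n)) (hPC : PC C)
    (hX : ∃ X ∈ LL C, ∃ c ∈ C, (c : Mt n) * X ≠ X * (c : Mt n)) :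
    IsClosed ((C ⊓ N1 C : Subgroup (U n)) : Set (U n)) := by
  obtain ⟨X0, hX0, c0, hc0, hne⟩ := hX
  refine hPC (C ⊓ N1 C) inf_le_left ?_ ?_
  · intro x hxC hx
    refine Subgroup.mem_inf.2 ⟨hxC, ?_⟩
    have h1 : closure ((C ⊓ N1 C : Subgroup (U n)) : Set (U n)) ⊆ (N1 C : Set (U n)) :=
      closure_minimal (fun y hy => (Subgroup.mem_inf.1 hy).2) (N1_closed C)
    exact h1 hx
  · intro h
    have h1 : c0 ∈ C ⊓ N1 C := by rw [h]; exact hc0
    exact hne ((Subgroup.mem_inf.1 h1).2 X0 hX0)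

theorem nc (hTR : S_TR) : S_NC := by
  intro n C hPC hX
  refine closed_gen (N := N1 C) (K1_closed C hPC hX) ?_
  intro O hO
  obtain ⟨O', hO', h⟩ := hTR n C O hO
  refine ⟨O', hO', ?_⟩
  intro g hg hgO
  obtain ⟨c, hc, hcO, hcc⟩ := h g hg hgO
  exact ⟨c, hc, hcO, hcc⟩

end Pool.Agent.W287.ZQ
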